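import Pool.Agent.Helper49.KX.St

/-!
Module OPN of project KX (MP_c973ff_an): the exchange condition is open.
-/

set_option autoImplicit false

namespace Pool.Agent.Helper79.KX

open Pool.Agent.Helper49.KX Topology

theorem hOPN : StOpn := by
  intro A _ _
  rw [isOpen_iff_mem_nhds]
  rintro x ⟨y, z, he, hz⟩
  set e : A := x * y with hedef
  have hcont : Continuous fun x' : A => x' * y * e + (1 - x') * z * (1 - e) := by fun_prop
  have hx : x * y * e + (1 - x) * z * (1 - e) = 1 := by
    rw [← hedef, ← hz, he]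
    have : (1 - e) * (1 - e) = 1 - e := by
      have h1 : (1 - e) * (1 - e) = 1 - e - e + e * e := by noncomm_ring
      rw [h1, he]; abel
    rw [this]; abel
  have hopen : IsOpen {v : A | IsUnit v} := Units.isOpen
  have hev : ∀ᶠ x' in 𝓝 x, IsUnit (x' * y * e + (1 - x') * z * (1 - e)) := by
    refine hcont.continuousAt.eventually (hopen.mem_nhds ?_)
    show IsUnit (x * y * e + (1 - x) * z * (1 - e))
    rw [hx]; exact isUnit_one
  filter_upwards [hev] with x' hu
  obtain ⟨v, hv⟩ := hu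
  have hve : (v : A) * e = x' * y * e := by
    have h1 : (1 - e) * e = 0 := by rw [sub_mul, one_mul, he, sub_self]
    rw [hv, add_mul, mul_assoc (x' * y) e e, he, mul_assoc ((1 - x') * z) (1 - e) e, h1,
      mul_zero, add_zero]
  refine ⟨y * e * ((v⁻¹ : Aˣ) : A), z * (1 - e) * ((v⁻¹ : Aˣ) : A), ?_, ?_⟩
  · have h2 : x' * (y * e * ((v⁻¹ : Aˣ) : A)) = (v : A) * e * ((v⁻¹ : Aˣ) : A) := by
      rw [hve]; simp only [mul_assoc]
    rw [h2]
    calc (v : A) * e * ((v⁻¹ : Aˣ) : A) * ((v : A) * e * ((v⁻¹ : Aˣ) : A))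
        = (v : A) * e * (((v⁻¹ : Aˣ) : A) * (v : A)) * e * ((v⁻¹ : Aˣ) : A) := by
          simp only [mul_assoc]
      _ = (v : A) * (e * e) * ((v⁻¹ : Aˣ) : A) := by
          rw [Units.inv_mul, mul_one, mul_assoc (v : A) e e]
      _ = _ := by rw [he]
  · have h3 : (1 - x') * (z * (1 - e) * ((v⁻¹ : Aˣ) : A))
        = ((v : A) - x' * y * e) * ((v⁻¹ : Aˣ) : A) := by
      rw [hv]
      simp only [mul_assoc]
      rw [add_sub_cancel_left]
      simp only [mul_assoc]
    rw [h3, sub_mul, Units.mul_inv]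
    simp only [mul_assoc]

end Pool.Agent.Helper79.KX
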